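import Mathlib
import Pool.Agent.TH497.PW.IntFlow
import Pool.Agent.TH362.FP.Pos
import Pool.Agent.Y335.FL.Main
import Pool.Agent.Q123.CB.Cls

set_option autoImplicit false

/-!
# Graphs covered by balls (MP_c8786f_co)

Let `G` be a bridgeless multigraph, let `B(c_i, r_i)` be balls with weights `a_i ≥ 0` (of the first
kind) and `B(d_j, s_j)` balls with weights `b_j ≥ 0` (of the second kind).  Assume that for each edge
`xy` with `x ≠ y` and each of its ends `x` the balls of the first kind which contain `x` and the
balls of the second kind which contain `x` or `y` have total weight at least one.  If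
`∑ a_i (3 * 2 ^ r_i - 2) + ∑ b_j (4 * 2 ^ s_j - 2) < 126` then `G` has a nowhere-zero 5-flow, and the
characteristic polynomial of its bond matroid is positive at all integers `q ≥ 5`.

In particular this holds if `V` is the union of balls of radii `r_i` with
`∑ (3 * 2 ^ r_i - 2) ≤ 125` (a ball of radius `r` in the cubic tree has `3 * 2 ^ r - 2` vertices, and
Tutte's 12-cage has 126 vertices), and if the vertex cover number is at most 62.

Proof.  The class is closed under contractions.  Let `G` be a counterexample with as few edges as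
possible.  Circuits with at most eleven edges can be contracted (library `Y335/FL` of helper335),
and so can one of two edges which form a cut; hence `G` has girth at least twelve and all degrees
are at least three (apart from isolated vertices).  Let `l_k` be the number of the paths with `k`
edges which start at a vertex `u`.  As the last edges of the paths with at most six edges are
different, `l_1 + ... + l_6 ≤ m`, and `l_(k+1) ≥ 2 l_k`.  The sum of the degrees in the ball of
radius `r` around `u` is `2 (l_1 + ... + l_r) + l_(r+1)`, and so at most `(3 * 2 ^ r - 2) / 126` of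
`2 m`; at most `(4 * 2 ^ r - 2) / 126` of the `m` edges have an end in the ball.  Summing the
assumption over all ends of edges one gets a contradiction.
-/

namespace Pool.Agent.Results.MP_c8786f_co.CoveringByBalls

open Pool.Agent.TH497.PW

variable {V E : Type}

/-- The edges with exactly one end in `X`. -/
def boundary [DecidableEq V] [Fintype E] (src dst : E → V) (X : Finset V) : Finset E :=
  Finset.univ.filter (fun e => ¬ (src e ∈ X ↔ dst e ∈ X))

/-- Kirchhoff's law. -/
def IsFlow [DecidableEq V] [Fintype E] (src dst : E → V) (f : E → ℤ) : Prop :=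
  ∀ v : V, ∑ e ∈ Finset.univ.filter (fun e => src e = v), f e
    = ∑ e ∈ Finset.univ.filter (fun e => dst e = v), f e

/-- The number of the components of the graph with the vertices `V` and the edges `A`. -/
noncomputable def components (src dst : E → V) (A : Finset E) : ℕ :=
  Nat.card (SimpleGraph.fromRel
    (fun u v : V => ∃ e ∈ A, src e = u ∧ dst e = v)).ConnectedComponent

/-- The rank of `A` in the cycle matroid of the graph. -/
noncomputable def cycleRank [Fintype V] (src dst : E → V) (A : Finset E) : ℕ :=
  Fintype.card V - components src dst A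

/-- The rank of `A` in the bond matroid of the graph (the dual of the cycle matroid). -/
noncomputable def bondRank [Fintype V] [Fintype E] [DecidableEq E] (src dst : E → V)
    (A : Finset E) : ℕ :=
  A.card + cycleRank src dst Aᶜ - cycleRank src dst Finset.univ

/-- The characteristic polynomial of the bond matroid at the integer `x`. -/
noncomputable def bondCharPoly [Fintype V] [Fintype E] [DecidableEq E] (src dst : E → V)
    (x : ℤ) : ℤ :=
  ∑ A : Finset E, (-1) ^ A.card * x ^ (bondRank src dst Finset.univ - bondRank src dst A)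

/-- The edge `e` joins `x` and `y`. -/
def Joins (src dst : E → V) (e : E) (x y : V) : Prop :=
  (src e = x ∧ dst e = y) ∨ (src e = y ∧ dst e = x)

/-- `v` belongs to the ball of radius `r` around `u`: some walk with at most `r` edges leads from
`u` to `v`. -/
def InBall (src dst : E → V) : ℕ → V → V → Prop
  | 0, u, v => u = v
  | r + 1, u, v => InBall src dst r u v ∨ ∃ w, InBall src dst r u w ∧ ∃ e, Joins src dst e w v

theorem inBall_iff (src dst : E → V) {r : ℕ} {u v : V} :
    Pool.Agent.Q123.CB.Near src dst r u v ↔ InBall src dst r u v := by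
  induction r generalizing v with
  | zero => exact Iff.rfl
  | succ r ih =>
    unfold Pool.Agent.Q123.CB.Near InBall
    rw [ih]
    refine or_congr_right (exists_congr fun w => ?_)
    rw [ih]
    rfl

theorem isFlow_iff [DecidableEq V] [Fintype E] (src dst : E → V) (f : E → ℤ) :
    IsFlow src dst f ↔
      ∀ v, ∑ e, f e * ((if src e = v then 1 else 0) - (if dst e = v then 1 else 0)) = 0 := by
  unfold IsFlow
  refine forall_congr' fun v => ?_
  rw [Finset.sum_filter, Finset.sum_filter, ← sub_eq_zero, ← Finset.sum_sub_distrib]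
  have : ∀ e, (if src e = v then f e else 0) - (if dst e = v then f e else 0)
      = f e * ((if src e = v then 1 else 0) - (if dst e = v then 1 else 0)) := by
    intro e
    by_cases h1 : src e = v <;> by_cases h2 : dst e = v <;> simp [h1, h2]
  rw [Finset.sum_congr rfl (fun e _ => this e)]

theorem nzf [Fintype V] [DecidableEq V] [Fintype E] [DecidableEq E] (src dst : E → V)
    (h : Pool.Agent.TH676.Z.FlowOn src dst ∅ ∅) : NZF src dst := by
  obtain ⟨f, h1, _, h3⟩ := h
  refine ⟨f, fun e => h3 e (Finset.notMem_empty _) (Finset.notMem_empty _), fun x => ?_⟩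
  rw [← h1 x]
  unfold Pool.Agent.TH676.Z.bd
  refine Finset.sum_congr rfl fun e _ => ?_
  unfold ic
  by_cases h4 : src e = x <;> by_cases h5 : dst e = x <;> simp [h4, h5]

theorem charPoly_pos [Fintype V] [DecidableEq V] [Fintype E] [DecidableEq E] (src dst : E → V)
    (f : E → ℤ) (h1 : IsFlow src dst f) (h2 : ∀ e, 1 ≤ |f e| ∧ |f e| ≤ 4) (q : ℕ) (hq : 5 ≤ q) :
    0 < bondCharPoly src dst q :=
  Pool.Agent.TH362.FP.chr_pos src dst f h2 h1 q hq

open Classical in
theorem result :
    ∀ (V E : Type) [Fintype V] [DecidableEq V] [Fintype E] [DecidableEq E] (src dst : E → V)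
      (k l : ℕ) (c : Fin k → V) (r : Fin k → ℕ) (a : Fin k → ℝ)
      (d : Fin l → V) (s : Fin l → ℕ) (b : Fin l → ℝ),
      (∀ i, 0 ≤ a i) → (∀ j, 0 ≤ b j) →
      ∑ i, a i * (3 * 2 ^ r i - 2) + ∑ j, b j * (4 * 2 ^ s j - 2) < 126 →
      (∀ e x y, Joins src dst e x y → x ≠ y →
        1 ≤ ∑ i, (if InBall src dst (r i) (c i) x then a i else 0) +
          ∑ j, (if InBall src dst (s j) (d j) x ∨ InBall src dst (s j) (d j) y then b j
            else 0)) →
      (∀ Y : Finset V, (boundary src dst Y).card ≠ 1) →
      (∃ f : E → ℤ, IsFlow src dst f ∧ ∀ e, 1 ≤ |f e| ∧ |f e| ≤ 4) ∧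
      ∀ q : ℕ, 5 ≤ q → 0 < bondCharPoly src dst q := by
  intro V E _ _ _ _ src dst k l c r a d s b ha hb hs hcov hbr
  have hcl : Pool.Agent.Q123.CB.ClB src dst := by
    refine ⟨k, l, c, r, a, d, s, b, ha, hb, hs, fun e x y hj hne => ?_⟩
    refine (hcov e x y hj hne).trans (le_of_eq ?_)
    unfold Pool.Agent.Q123.CB.cov
    simp only [inBall_iff]
  have hfl := Pool.Agent.Q123.CB.flow_of_ClB Pool.Agent.Y335.FL.contract_all src dst hcl
    (fun Y _ => by rw [Finset.sdiff_empty]; exact hbr Y)
  obtain ⟨F, hF, hF0⟩ := int_flow src dst (nzf src dst hfl)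
  have hF1 := (isFlow_iff src dst F).mpr hF0
  exact ⟨⟨F, hF1, hF⟩, fun q hq => charPoly_pos src dst F hF1 hF q hq⟩

/-- Special case: the vertices are covered by balls of radii `r_i`, `∑ (3 * 2 ^ r_i - 2) ≤ 125`. -/
theorem balls (V E : Type) [Fintype V] [DecidableEq V] [Fintype E] [DecidableEq E]
    (src dst : E → V) (k : ℕ) (c : Fin k → V) (r : Fin k → ℕ)
    (hs : ∑ i, ((3 : ℝ) * 2 ^ r i - 2) ≤ 125) (hc : ∀ x, ∃ i, InBall src dst (r i) (c i) x)
    (hbr : ∀ Y : Finset V, (boundary src dst Y).card ≠ 1) :
    ∃ f : E → ℤ, IsFlow src dst f ∧ ∀ e, 1 ≤ |f e| ∧ |f e| ≤ 4 := by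
  classical
  refine (result V E src dst k 0 c r (fun _ => 1) Fin.elim0 Fin.elim0 Fin.elim0
    (fun _ => zero_le_one) (fun j => j.elim0) ?_ ?_ hbr).1
  · simp only [one_mul, Finset.univ_eq_empty, Finset.sum_empty, add_zero]
    linarith
  · intro e x y _ _
    obtain ⟨i, hi⟩ := hc x
    rw [Finset.univ_eq_empty (α := Fin 0), Finset.sum_empty, add_zero]
    calc (1 : ℝ) = if InBall src dst (r i) (c i) x then (1 : ℝ) else 0 := (if_pos hi).symm
      _ ≤ _ := Finset.single_le_sum (f := fun i => if InBall src dst (r i) (c i) x then (1 : ℝ)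
        else 0) (fun j _ => by split_ifs <;> norm_num) (Finset.mem_univ i)

/-- Special case: at most 62 vertices meet all edges which are not loops. -/
theorem vertex_cover (V E : Type) [Fintype V] [DecidableEq V] [Fintype E] [DecidableEq E]
    (src dst : E → V) (l : ℕ) (hl : l ≤ 62) (d : Fin l → V)
    (hd : ∀ e, src e ≠ dst e → ∃ j, d j = src e ∨ d j = dst e)
    (hbr : ∀ Y : Finset V, (boundary src dst Y).card ≠ 1) :
    ∃ f : E → ℤ, IsFlow src dst f ∧ ∀ e, 1 ≤ |f e| ∧ |f e| ≤ 4 := by
  classical
  refine (result V E src dst 0 l Fin.elim0 Fin.elim0 Fin.elim0 d (fun _ => 0) (fun _ => 1)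
    (fun j => j.elim0) (fun _ => zero_le_one) ?_ ?_ hbr).1
  · rw [Finset.univ_eq_empty (α := Fin 0), Finset.sum_empty, zero_add]
    simp only [pow_zero, mul_one, one_mul, Finset.sum_const, Finset.card_univ, Fintype.card_fin,
      nsmul_eq_mul]
    have : (l : ℝ) ≤ 62 := by exact_mod_cast hl
    linarith
  · intro e x y hj hne
    obtain ⟨j, hj'⟩ : ∃ j, InBall src dst 0 (d j) x ∨ InBall src dst 0 (d j) y := by
      rcases hj with ⟨h1, h2⟩ | ⟨h1, h2⟩
      · obtain ⟨j, h | h⟩ := hd e (by rw [h1, h2]; exact hne)
        · exact ⟨j, Or.inl (h.trans h1)⟩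
        · exact ⟨j, Or.inr (h.trans h2)⟩
      · obtain ⟨j, h | h⟩ := hd e (by rw [h1, h2]; exact hne.symm)
        · exact ⟨j, Or.inr (h.trans h1)⟩
        · exact ⟨j, Or.inl (h.trans h2)⟩
    rw [Finset.univ_eq_empty (α := Fin 0), Finset.sum_empty, zero_add]
    calc (1 : ℝ) = if InBall src dst 0 (d j) x ∨ InBall src dst 0 (d j) y then (1 : ℝ) else 0 :=
          (if_pos hj').symm
      _ ≤ _ := Finset.single_le_sum (f := fun j => if InBall src dst 0 (d j) x ∨
          InBall src dst 0 (d j) y then (1 : ℝ) else 0)
          (fun j _ => by split_ifs <;> norm_num) (Finset.mem_univ j)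

end Pool.Agent.Results.MP_c8786f_co.CoveringByBalls
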