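import Mathlib
import Pool.Agent.TH497.PW.IntFlow
import Pool.Agent.TH362.FP.Pos
import Pool.Agent.Helper335.Rel.Main
import Pool.Agent.Q287.FL.Frag

set_option autoImplicit false

/-!
# Small pieces after the deletion of few vertices (MP_c8786f_co)

Let `G` be a bridgeless multigraph and let `C_1, ..., C_m` be cycles, each with at most eleven edges
outside the union of the earlier ones; let `F` be the union.  Let `t` and `k` be integers with
`1 ≤ t ≤ 11` and `k (4 t + 2) ≤ (126 - t) (t + 2)`.  If `G / F` has a set `S` of at most `k` vertices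
such that every connected set of vertices outside `S` contains at most `t` vertices of degree at
least three, then `G` has a nowhere-zero 5-flow, and the characteristic polynomial of the bond
matroid of `G` is positive at all integers `q ≥ 5`.

The condition is satisfied for `(t, k) = (1, 62), (2, 49), (3, 43), (4, 40), (5, 38), (6, 36),
(7, 35), (8, 34), (9, 33), (10, 33), (11, 32)` (`table` below): for example if the deletion of at
most 40 vertices leaves components with at most four vertices each.  The degrees and the order of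
`G` are arbitrary.

Proof.  The class is closed under contractions, so a minimal counterexample has girth at least
twelve and all degrees at least three (apart from isolated vertices; libraries `Y335/FL` and
`Y358/IN`).  By the Moore bound for irregular graphs (Alon, Hoory, Linial) every set of at most 125
vertices of such a graph spans fewer than `3/2` edges per vertex.  But let `W` be a union of
components of `G - S` with `126 - k - t ≤ |W| ≤ 125 - k`.  The components are trees with at most `t`
vertices, so at least `2 |W| + |W| / t` edges meet `W`, and they are spanned by at most `|W| + k`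
vertices.
-/

namespace Pool.Agent.Results.MP_c8786f_co.SmallPieces

variable {V E W : Type}

/-- The edges with exactly one end in `Y`. -/
def boundary [DecidableEq V] [Fintype E] (src dst : E → V) (Y : Finset V) : Finset E :=
  Finset.univ.filter (fun e => ¬ (src e ∈ Y ↔ dst e ∈ Y))

/-- Kirchhoff's law. -/
def IsFlow [DecidableEq V] [Fintype E] (src dst : E → V) (f : E → ℤ) : Prop :=
  ∀ v : V, ∑ e ∈ Finset.univ.filter (fun e => src e = v), f e
    = ∑ e ∈ Finset.univ.filter (fun e => dst e = v), f e

/-- `C` is a cycle: the support of an integer flow with the values `0`, `1` and `-1`. -/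
def IsCycle [DecidableEq V] [Fintype E] (src dst : E → V) (C : Finset E) : Prop :=
  ∃ z : E → ℤ, IsFlow src dst z ∧ (∀ e, z e = 0 ∨ z e = 1 ∨ z e = -1) ∧ ∀ e, z e ≠ 0 ↔ e ∈ C

/-- The map `r` identifies only vertices which are joined by a path with edges in `F`; if `r` is
the map to the components of the graph `(V, F)` then `r ∘ src`, `r ∘ dst` is the graph `G / F` (with
the edges in `F` as loops). -/
def JoinedIn (src dst : E → V) (F : Finset E) (r : V → W) : Prop :=
  ∀ x y, r x = r y → (SimpleGraph.fromRel
    (fun u v : V => ∃ e ∈ F, src e = u ∧ dst e = v)).Reachable x y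

/-- The number of the connected components of the graph with the vertices `V` and the edges `A`. -/
noncomputable def components (src dst : E → V) (A : Finset E) : ℕ :=
  Nat.card (SimpleGraph.fromRel
    (fun u v : V => ∃ e ∈ A, src e = u ∧ dst e = v)).ConnectedComponent

/-- The rank of `A` in the cycle matroid of the graph. -/
noncomputable def cycleRank [Fintype V] (src dst : E → V) (A : Finset E) : ℕ :=
  Fintype.card V - components src dst A

/-- The rank of `A` in the bond matroid of the graph, the dual of the cycle matroid: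
`|A| + r(E \ A) - r(E)`. -/
noncomputable def bondRank [Fintype V] [Fintype E] [DecidableEq E] (src dst : E → V)
    (A : Finset E) : ℕ :=
  A.card + cycleRank src dst Aᶜ - cycleRank src dst Finset.univ

/-- The characteristic polynomial of the bond matroid at the integer `x`,
`∑ (-1)^|A| x^(r*(E) - r*(A))`. -/
noncomputable def bondCharPoly [Fintype V] [Fintype E] [DecidableEq E] (src dst : E → V)
    (x : ℤ) : ℤ :=
  ∑ A : Finset E, (-1) ^ A.card * x ^ (bondRank src dst Finset.univ - bondRank src dst A)

theorem isFlow_iff [DecidableEq V] [Fintype E] (src dst : E → V) (f : E → ℤ) :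
    IsFlow src dst f ↔
      ∀ v, ∑ e, f e * ((if src e = v then 1 else 0) - (if dst e = v then 1 else 0)) = 0 := by
  unfold IsFlow
  refine forall_congr' fun v => ?_
  rw [Finset.sum_filter, Finset.sum_filter, ← sub_eq_zero, ← Finset.sum_sub_distrib]
  have : ∀ e, (if src e = v then f e else 0) - (if dst e = v then f e else 0)
      = f e * ((if src e = v then 1 else 0) - (if dst e = v then 1 else 0)) := by
    intro e
    by_cases h1 : src e = v <;> by_cases h2 : dst e = v <;> simp [h1, h2]
  rw [Finset.sum_congr rfl (fun e _ => this e)]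

theorem nzf [Fintype V] [DecidableEq V] [Fintype E] [DecidableEq E] (src dst : E → V)
    (h : Pool.Agent.TH676.Z.FlowOn src dst ∅ ∅) : Pool.Agent.TH497.PW.NZF src dst := by
  obtain ⟨f, h1, _, h3⟩ := h
  refine ⟨f, fun e => h3 e (Finset.notMem_empty _) (Finset.notMem_empty _), fun x => ?_⟩
  rw [← h1 x]
  unfold Pool.Agent.TH676.Z.bd
  refine Finset.sum_congr rfl fun e _ => ?_
  unfold Pool.Agent.TH497.PW.ic
  by_cases h4 : src e = x <;> by_cases h5 : dst e = x <;> simp [h4, h5]

/-- the reduction modulo five of a flow with values in `{0, 1, -1}` -/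
theorem mod5 [Fintype V] [DecidableEq V] [Fintype E] [DecidableEq E] (src dst : E → V)
    (C : Finset E) (h : IsCycle src dst C) :
    ∃ z : E → ZMod 5, (∀ v, Pool.Agent.TH676.Z.bd src dst z v = 0) ∧
      (∀ e, z e = 0 ∨ z e = 1 ∨ z e = -1) ∧ ∀ e, z e ≠ 0 ↔ e ∈ C := by
  obtain ⟨z, h1, h2, h3⟩ := h
  refine ⟨fun e => ((z e : ℤ) : ZMod 5), fun v => ?_, fun e => ?_, fun e => ?_⟩
  · have h4 := h1 v
    rw [Finset.sum_filter, Finset.sum_filter, ← sub_eq_zero, ← Finset.sum_sub_distrib] at h4
    have h5 := congrArg (fun t : ℤ => (t : ZMod 5)) h4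
    simp only [Int.cast_sum, Int.cast_sub, Int.cast_zero] at h5
    refine Eq.trans ?_ h5
    unfold Pool.Agent.TH676.Z.bd
    rw [Finset.sum_sub_distrib, Finset.sum_sub_distrib]
    congr 1 <;>
    · refine Finset.sum_congr rfl fun e _ => ?_
      split_ifs <;> simp
  · rcases h2 e with h | h | h <;> simp [h]
  · rw [← h3 e]
    have h10 : (1 : ZMod 5) ≠ 0 := by decide
    rcases h2 e with h | h | h <;> simp [h, h10]

theorem finish [Fintype V] [DecidableEq V] [Fintype E] [DecidableEq E] (src dst : E → V)
    (h : Pool.Agent.TH676.Z.FlowOn src dst ∅ ∅) :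
    (∃ f : E → ℤ, IsFlow src dst f ∧ ∀ e, 1 ≤ |f e| ∧ |f e| ≤ 4) ∧
      ∀ q : ℕ, 5 ≤ q → 0 < bondCharPoly src dst q := by
  obtain ⟨F, hF, hF0⟩ := Pool.Agent.TH497.PW.int_flow src dst (nzf src dst h)
  have hF1 := (isFlow_iff src dst F).mpr hF0
  exact ⟨⟨F, hF1, hF⟩, fun q hq => Pool.Agent.TH362.FP.chr_pos src dst F hF hF1 q hq⟩

/-- The degree of `v`; loops are not counted. -/
def properDegree [DecidableEq V] [Fintype E] (src dst : E → V) (v : V) : ℕ :=
  (Finset.univ.filter (fun e => src e ≠ dst e ∧ (src e = v ∨ dst e = v))).card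

/-- The set `X` of vertices is connected: for every proper nonempty part `Z` of `X` there is an edge
with one end in `Z` and one end in `X \ Z`. -/
def IsConnected [DecidableEq V] (src dst : E → V) (X : Finset V) : Prop :=
  ∀ Z ⊆ X, Z.Nonempty → Z ≠ X →
    ∃ e, (src e ∈ Z ∧ dst e ∈ X \ Z) ∨ (dst e ∈ Z ∧ src e ∈ X \ Z)

theorem result :
    ∀ (V E W : Type) [Fintype V] [DecidableEq V] [Fintype E] [DecidableEq E] [Fintype W]
      [DecidableEq W] (src dst : E → V) (m : ℕ) (C : Fin m → Finset E),
      (∀ i, IsCycle src dst (C i)) →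
      (∀ i, (C i \ (Finset.univ.filter (fun j => j < i)).biUnion C).card ≤ 11) →
      ∀ r : V → W, JoinedIn src dst (Finset.univ.biUnion C) r →
      ∀ t k : ℕ, 1 ≤ t → t ≤ 11 → k * (4 * t + 2) ≤ (126 - t) * (t + 2) →
      ∀ S : Finset W, S.card ≤ k →
      (∀ X : Finset W, Disjoint X S → IsConnected (r ∘ src) (r ∘ dst) X →
        (X.filter (fun v => 3 ≤ properDegree (r ∘ src) (r ∘ dst) v)).card ≤ t) →
      (∀ Y : Finset V, (boundary src dst Y).card ≠ 1) →
      (∃ f : E → ℤ, IsFlow src dst f ∧ ∀ e, 1 ≤ |f e| ∧ |f e| ≤ 4) ∧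
      ∀ q : ℕ, 5 ≤ q → 0 < bondCharPoly src dst q := by
  intro V E W _ _ _ _ _ _ src dst m C hC hnew r hr t k ht1 ht hk S hS hX hb
  exact finish src dst (Pool.Agent.Helper335.Rel.relative src dst m C
    (fun i => mod5 src dst (C i) (hC i)) hnew r hr
    (Pool.Agent.Q287.FL.Frag.flow_of_ClF t k ht1 ht hk (r ∘ src) (r ∘ dst)
      ⟨S, hS, fun X h1 h2 => hX X h1 h2⟩ (fun Y _ => by
        rw [Finset.sdiff_empty]
        exact Pool.Agent.Helper335.Rel.br_quot src dst r hb Y)))

/-- The admissible pairs. -/
theorem table : ∀ p ∈ [((1 : ℕ), (62 : ℕ)), (2, 49), (3, 43), (4, 40), (5, 38), (6, 36), (7, 35),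
    (8, 34), (9, 33), (10, 33), (11, 32)],
    1 ≤ p.1 ∧ p.1 ≤ 11 ∧ p.2 * (4 * p.1 + 2) ≤ (126 - p.1) * (p.1 + 2) := by decide

end Pool.Agent.Results.MP_c8786f_co.SmallPieces
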