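import Mathlib
import Pool.Agent.TH497.PW.IntFlow
import Pool.Agent.TH362.FP.Pos
import Pool.Agent.Helper335.Rel.Main
import Pool.Agent.Q287.FL.Odd

set_option autoImplicit false

/-!
# No 107 disjoint vertex sets with three boundary edges (MP_c8786f_co)

Let `G` be a bridgeless multigraph and let `C_1, ..., C_m` be cycles, each with at most eleven edges
outside the union of the earlier ones; let `F` be the union.  If there are no 107 pairwise disjoint
vertex sets with pairwise different boundaries of size three which avoid `F`, then `G` has a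
nowhere-zero 5-flow, and the characteristic polynomial of the bond matroid of `G` is positive at all
integers `q ≥ 5`.

The case `m = 0` (`fewThreeCuts` below): every bridgeless multigraph with at most 106 edge cuts of
size three has a nowhere-zero 5-flow.  (In the starting files this is done for 31 in the place of
106.)

Proof.  Let `G` be a counterexample to the case `m = 0` with as few edges as possible among the
quotients of a given one.  Its edge cuts of size three isolate a vertex, its degrees are at least
three, and by the covering theorem (starting files, `TH362/FF`) the number `b` of the vertices of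
odd degree at least five and the number `a ≤ 106` of the vertices of degree three satisfy
`5 b + 12 ≤ a`.  Hence at most 125 vertices have odd degree.  By splitting off edges, a
counterexample with at most 125 vertices of odd degree and as few edges as possible is cubic, and
since circuits with at most eleven edges are contractible for nowhere-zero `Z_5`-flows (library
`Y335/FL`) it has girth at least twelve and so at least 126 vertices, a contradiction.
-/

namespace Pool.Agent.Results.MP_c8786f_co.ThreeCutsBound

variable {V E : Type}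

/-- The edges with exactly one end in `Y`. -/
def boundary [DecidableEq V] [Fintype E] (src dst : E → V) (Y : Finset V) : Finset E :=
  Finset.univ.filter (fun e => ¬ (src e ∈ Y ↔ dst e ∈ Y))

/-- Kirchhoff's law. -/
def IsFlow [DecidableEq V] [Fintype E] (src dst : E → V) (f : E → ℤ) : Prop :=
  ∀ v : V, ∑ e ∈ Finset.univ.filter (fun e => src e = v), f e
    = ∑ e ∈ Finset.univ.filter (fun e => dst e = v), f e

/-- `C` is a cycle: the support of an integer flow with the values `0`, `1` and `-1`. -/
def IsCycle [DecidableEq V] [Fintype E] (src dst : E → V) (C : Finset E) : Prop :=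
  ∃ z : E → ℤ, IsFlow src dst z ∧ (∀ e, z e = 0 ∨ z e = 1 ∨ z e = -1) ∧ ∀ e, z e ≠ 0 ↔ e ∈ C

/-- The number of the connected components of the graph with the vertices `V` and the edges `A`. -/
noncomputable def components (src dst : E → V) (A : Finset E) : ℕ :=
  Nat.card (SimpleGraph.fromRel
    (fun u v : V => ∃ e ∈ A, src e = u ∧ dst e = v)).ConnectedComponent

/-- The rank of `A` in the cycle matroid of the graph. -/
noncomputable def cycleRank [Fintype V] (src dst : E → V) (A : Finset E) : ℕ :=
  Fintype.card V - components src dst A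

/-- The rank of `A` in the bond matroid of the graph, the dual of the cycle matroid:
`|A| + r(E \ A) - r(E)`. -/
noncomputable def bondRank [Fintype V] [Fintype E] [DecidableEq E] (src dst : E → V)
    (A : Finset E) : ℕ :=
  A.card + cycleRank src dst Aᶜ - cycleRank src dst Finset.univ

/-- The characteristic polynomial of the bond matroid at the integer `x`,
`∑ (-1)^|A| x^(r*(E) - r*(A))`. -/
noncomputable def bondCharPoly [Fintype V] [Fintype E] [DecidableEq E] (src dst : E → V)
    (x : ℤ) : ℤ :=
  ∑ A : Finset E, (-1) ^ A.card * x ^ (bondRank src dst Finset.univ - bondRank src dst A)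

theorem isFlow_iff [DecidableEq V] [Fintype E] (src dst : E → V) (f : E → ℤ) :
    IsFlow src dst f ↔
      ∀ v, ∑ e, f e * ((if src e = v then 1 else 0) - (if dst e = v then 1 else 0)) = 0 := by
  unfold IsFlow
  refine forall_congr' fun v => ?_
  rw [Finset.sum_filter, Finset.sum_filter, ← sub_eq_zero, ← Finset.sum_sub_distrib]
  have : ∀ e, (if src e = v then f e else 0) - (if dst e = v then f e else 0)
      = f e * ((if src e = v then 1 else 0) - (if dst e = v then 1 else 0)) := by
    intro e
    by_cases h1 : src e = v <;> by_cases h2 : dst e = v <;> simp [h1, h2]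
  rw [Finset.sum_congr rfl (fun e _ => this e)]

theorem nzf [Fintype V] [DecidableEq V] [Fintype E] [DecidableEq E] (src dst : E → V)
    (h : Pool.Agent.TH676.Z.FlowOn src dst ∅ ∅) : Pool.Agent.TH497.PW.NZF src dst := by
  obtain ⟨f, h1, _, h3⟩ := h
  refine ⟨f, fun e => h3 e (Finset.notMem_empty _) (Finset.notMem_empty _), fun x => ?_⟩
  rw [← h1 x]
  unfold Pool.Agent.TH676.Z.bd
  refine Finset.sum_congr rfl fun e _ => ?_
  unfold Pool.Agent.TH497.PW.ic
  by_cases h4 : src e = x <;> by_cases h5 : dst e = x <;> simp [h4, h5]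

/-- the reduction modulo five of a flow with values in `{0, 1, -1}` -/
theorem mod5 [Fintype V] [DecidableEq V] [Fintype E] [DecidableEq E] (src dst : E → V)
    (C : Finset E) (h : IsCycle src dst C) :
    ∃ z : E → ZMod 5, (∀ v, Pool.Agent.TH676.Z.bd src dst z v = 0) ∧
      (∀ e, z e = 0 ∨ z e = 1 ∨ z e = -1) ∧ ∀ e, z e ≠ 0 ↔ e ∈ C := by
  obtain ⟨z, h1, h2, h3⟩ := h
  refine ⟨fun e => ((z e : ℤ) : ZMod 5), fun v => ?_, fun e => ?_, fun e => ?_⟩
  · have h4 := h1 v
    rw [Finset.sum_filter, Finset.sum_filter, ← sub_eq_zero, ← Finset.sum_sub_distrib] at h4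
    have h5 := congrArg (fun t : ℤ => (t : ZMod 5)) h4
    simp only [Int.cast_sum, Int.cast_sub, Int.cast_zero] at h5
    refine Eq.trans ?_ h5
    unfold Pool.Agent.TH676.Z.bd
    rw [Finset.sum_sub_distrib, Finset.sum_sub_distrib]
    congr 1 <;>
    · refine Finset.sum_congr rfl fun e _ => ?_
      split_ifs <;> simp
  · rcases h2 e with h | h | h <;> simp [h]
  · rw [← h3 e]
    have h10 : (1 : ZMod 5) ≠ 0 := by decide
    rcases h2 e with h | h | h <;> simp [h, h10]

theorem finish [Fintype V] [DecidableEq V] [Fintype E] [DecidableEq E] (src dst : E → V)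
    (h : Pool.Agent.TH676.Z.FlowOn src dst ∅ ∅) :
    (∃ f : E → ℤ, IsFlow src dst f ∧ ∀ e, 1 ≤ |f e| ∧ |f e| ≤ 4) ∧
      ∀ q : ℕ, 5 ≤ q → 0 < bondCharPoly src dst q := by
  obtain ⟨F, hF, hF0⟩ := Pool.Agent.TH497.PW.int_flow src dst (nzf src dst h)
  have hF1 := (isFlow_iff src dst F).mpr hF0
  exact ⟨⟨F, hF1, hF⟩, fun q hq => Pool.Agent.TH362.FP.chr_pos src dst F hF hF1 q hq⟩

/-- the case of no cycles -/
theorem flowOn_cuts [Fintype V] [DecidableEq V] [Fintype E] [DecidableEq E] (src dst : E → V)
    (hX : ∀ X : Fin 107 → Finset V, (∀ i j, i ≠ j → Disjoint (X i) (X j)) →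
      (∀ i j, i ≠ j → boundary src dst (X i) ≠ boundary src dst (X j)) →
      ∃ i, (boundary src dst (X i)).card ≠ 3)
    (hb : ∀ Y : Finset V, (boundary src dst Y).card ≠ 1) :
    Pool.Agent.TH676.Z.FlowOn src dst ∅ ∅ := by
  classical
  have hcut : ∀ x : V → Bool, Pool.Agent.TH362.TF.cut src dst Finset.univ x =
      boundary src dst (Finset.univ.filter (fun v => x v = true)) := by
    intro x
    unfold Pool.Agent.TH362.TF.cut boundary
    refine Finset.filter_congr fun e _ => ?_
    simp only [Finset.mem_filter, Finset.mem_univ, true_and]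
    cases x (src e) <;> cases x (dst e) <;> simp
  have h1 : Pool.Agent.TH362.TF.N1 src dst Finset.univ := fun x => by rw [hcut]; exact hb _
  have h2 : ¬ Pool.Agent.TH362.FF.Fam src dst Finset.univ 107 := by
    rintro ⟨X, k1, k2, k3⟩
    obtain ⟨i, hi⟩ := hX (fun i => Finset.univ.filter (fun v => X i v = true))
      (fun i j hij => Finset.disjoint_left.2 fun v hv hv' =>
        k1 i j hij v ⟨(Finset.mem_filter.1 hv).2, (Finset.mem_filter.1 hv').2⟩)
      (fun i j hij => by rw [← hcut, ← hcut]; exact k2 i j hij)
    apply hi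
    rw [← hcut]
    exact k3 i
  obtain ⟨φ, k1, k2⟩ := Pool.Agent.Q287.FL.fam107 src dst Finset.univ h1 h2
  exact ⟨φ, fun v => k2 v, fun e he => absurd he (Finset.notMem_empty _),
    fun e _ _ => k1 e (Finset.mem_univ e)⟩

/-- the theorem for flows with values in `Z_5` -/
theorem flowOn_all [Fintype V] [DecidableEq V] [Fintype E] [DecidableEq E]
    (src dst : E → V) (k : ℕ) (C : Fin k → Finset E)
    (hb : ∀ Y : Finset V, (boundary src dst Y).card ≠ 1)
    (hC : ∀ i, ∃ z : E → ZMod 5, (∀ v, Pool.Agent.TH676.Z.bd src dst z v = 0) ∧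
      (∀ e, z e = 0 ∨ z e = 1 ∨ z e = -1) ∧ ∀ e, z e ≠ 0 ↔ e ∈ C i)
    (hnew : ∀ i, (C i \ (Finset.univ.filter (fun j => j < i)).biUnion C).card ≤ 11)
    (hX : ∀ X : Fin 107 → Finset V, (∀ i j, i ≠ j → Disjoint (X i) (X j)) →
      (∀ i j, i ≠ j → boundary src dst (X i) ≠ boundary src dst (X j)) →
      (∀ i, Disjoint (boundary src dst (X i)) (Finset.univ.biUnion C)) →
      ∃ i, (boundary src dst (X i)).card ≠ 3) :
    Pool.Agent.TH676.Z.FlowOn src dst ∅ ∅ := by
  classical
  obtain ⟨W, hW1, hW2, r, hr, hF, hflow, -⟩ :=
    Pool.Agent.Y335.FL.quot' V E src dst (Finset.univ.biUnion C)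
  have hpre : ∀ X : Finset W,
      boundary src dst (Finset.univ.filter (fun x => r x ∈ X)) =
      boundary (r ∘ src) (r ∘ dst) X := by
    intro X
    unfold boundary
    refine Finset.filter_congr fun e _ => ?_
    simp
  have h0 := flowOn_cuts (r ∘ src) (r ∘ dst) (fun X hdis hne => by
      obtain ⟨i, hi⟩ := hX (fun i => Finset.univ.filter (fun x => r x ∈ X i)) (by
        intro i j hij
        have := hdis i j hij
        rw [Finset.disjoint_left] at this ⊢
        intro x hx hx'
        simp only [Finset.mem_filter, Finset.mem_univ, true_and] at hx hx'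
        exact this hx hx') (by
        intro i j hij
        rw [hpre, hpre]
        exact hne i j hij) (by
        intro i
        rw [hpre, Finset.disjoint_left]
        intro e he heF
        unfold boundary at he
        rw [Finset.mem_filter] at he
        apply he.2
        simp only [Function.comp, hF e heF])
      rw [hpre] at hi
      exact ⟨i, hi⟩) (fun Y => by rw [← hpre Y]; exact hb _)
  have h1 := hflow ∅ h0
  rw [Finset.union_empty] at h1
  exact Pool.Agent.Y335.FL.lift_all V E src dst k C hC hnew h1

theorem result :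
    ∀ (V E : Type) [Fintype V] [DecidableEq V] [Fintype E] [DecidableEq E]
      (src dst : E → V) (m : ℕ) (C : Fin m → Finset E),
      (∀ i, IsCycle src dst (C i)) →
      (∀ i, (C i \ (Finset.univ.filter (fun j => j < i)).biUnion C).card ≤ 11) →
      (∀ X : Fin 107 → Finset V, (∀ i j, i ≠ j → Disjoint (X i) (X j)) →
        (∀ i j, i ≠ j → boundary src dst (X i) ≠ boundary src dst (X j)) →
        (∀ i, Disjoint (boundary src dst (X i)) (Finset.univ.biUnion C)) →
        ∃ i, (boundary src dst (X i)).card ≠ 3) →
      (∀ Y : Finset V, (boundary src dst Y).card ≠ 1) →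
      (∃ f : E → ℤ, IsFlow src dst f ∧ ∀ e, 1 ≤ |f e| ∧ |f e| ≤ 4) ∧
      ∀ q : ℕ, 5 ≤ q → 0 < bondCharPoly src dst q := by
  intro V E _ _ _ _ src dst m C hC hnew hX hb
  exact finish src dst (flowOn_all src dst m C hb (fun i => mod5 src dst (C i) (hC i)) hnew hX)

/-- At most 106 edge cuts of size three. -/
theorem fewThreeCuts (V E : Type) [Fintype V] [DecidableEq V] [Fintype E] [DecidableEq E]
    (src dst : E → V)
    (h3 : ((Finset.univ.image (boundary src dst)).filter (fun B => B.card = 3)).card ≤ 106)
    (hb : ∀ Y : Finset V, (boundary src dst Y).card ≠ 1) :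
    ∃ f : E → ℤ, IsFlow src dst f ∧ ∀ e, 1 ≤ |f e| ∧ |f e| ≤ 4 := by
  refine (result V E src dst 0 (fun _ => ∅) (fun i => i.elim0) (fun i => i.elim0) ?_ hb).1
  intro X _ hne _
  by_contra hcon
  push Not at hcon
  have h1 : (Finset.univ.image (fun i : Fin 107 => boundary src dst (X i))).card = 107 := by
    rw [Finset.card_image_of_injective, Finset.card_univ, Fintype.card_fin]
    intro i j hij
    by_contra h
    exact hne i j h hij
  have h2 : Finset.univ.image (fun i : Fin 107 => boundary src dst (X i)) ⊆
      (Finset.univ.image (boundary src dst)).filter (fun B => B.card = 3) := by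
    intro B hB
    obtain ⟨i, _, rfl⟩ := Finset.mem_image.1 hB
    exact Finset.mem_filter.2 ⟨Finset.mem_image_of_mem _ (Finset.mem_univ _), hcon i⟩
  have := Finset.card_le_card h2
  omega

end Pool.Agent.Results.MP_c8786f_co.ThreeCutsBound
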